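import Pool.Agent.H33.OS3

set_option autoImplicit false

open Set Filter Topology OnePoint Pool.Agent.H33 Pool.Agent.H33.OS1

namespace Pool.Agent.Results.MP_8e9337_gt.DiamondCex

theorem result (h : DiaDefs.Diamond) :
    ¬ (∀ (G : Type) [Group G] (τ : TopologicalSpace G), IsTopologicalGroup G → T2Space G →
    (∀ σ : TopologicalSpace G, @IsTopologicalGroup G σ _ → @T2Space G σ →
      (∀ u : ℕ → G, (∃ x : G, Tendsto u atTop (@nhds G τ x)) →
        ∃ y : G, Tendsto u atTop (@nhds G σ y)) → τ ≤ σ) →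
    (∀ (A : Set G) (x : G), x ∈ closure A → ∃ B ⊆ A, B.Countable ∧ x ∈ closure B) →
    (∀ A : Set G, (∀ K : Set G, IsCompact K → IsClosed (A ∩ K)) → IsClosed A) →
    SequentialSpace G) := by
  classical
  obtain ⟨τ, V, t2, fc, cf, hV, k1, k2⟩ := OS2.space h
  have : WeaklyLocallyCompactSpace L :=
    ⟨fun x => ⟨V x, (hV x).2.2.1, (hV x).2.1.mem_nhds (hV x).1⟩⟩
  have : IsTopologicalGroup (Multiplicative (ZMod 3)) :=
    { continuous_mul := continuous_of_discreteTopology
      continuous_inv := continuous_of_discreteTopology }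
  let g : Multiplicative (ZMod 3) := Multiplicative.ofAdd 1
  have ff : ∀ x, fl true (fl true x) = x := fun x => by simp [fl]
  let j₀ : OnePoint L → L → Multiplicative (ZMod 3) := fun x y =>
    if x ∈ (↑) '' V y then g else if x ∈ (↑) '' (fl true '' V y) then g⁻¹ else 1
  have e0 : j₀ ∞ = 1 := funext fun y => by simp [j₀]
  have im : ∀ x y, x ∈ fl true '' V y ↔ fl true x ∈ V y := fun x y =>
    ⟨by rintro ⟨z, hz, rfl⟩; rwa [ff], fun h => ⟨_, h, ff x⟩⟩
  have e1 : ∀ x y : L, j₀ x y = if x ∈ V y then g else if fl true x ∈ V y then g⁻¹ else 1 :=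
    fun x y => by simp only [j₀, coe_injective.mem_set_image, im]
  have e2 : ∀ x : L, j₀ (fl true x) = (j₀ x)⁻¹ := fun x => funext fun y => by
    rw [Pi.inv_apply, e1, e1, ff]
    have := (hV y).2.2.2 x
    by_cases a : x ∈ V y <;> by_cases b : fl true x ∈ V y <;> simp_all
  have c0 : Continuous j₀ := continuous_pi fun y => by
    have cl : ∀ K : Set L, IsOpen K → IsCompact K →
        frontier ((↑) '' K : Set (OnePoint L)) = ∅ := fun K a b => IsClopen.frontier_eq
      ⟨(b.image continuous_coe).isClosed, isOpen_image_coe.2 a⟩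
    have h1 := cl _ (hV y).2.1 (hV y).2.2.1
    have h2 := cl (fl true '' V y) (by
      convert (hV y).2.1.preimage cf using 1
      exact Set.ext fun x => im x y) ((hV y).2.2.1.image cf)
    exact continuous_if (fun a ha => (h1.le ha).elim) continuousOn_const
      (continuous_if (fun a ha => (h2.le ha).elim) continuousOn_const
        continuousOn_const).continuousOn
  let j : OnePoint L → Subgroup.closure (range j₀) := fun x =>
    ⟨j₀ x, Subgroup.subset_closure ⟨x, rfl⟩⟩
  have cj : Continuous j := c0.subtype_mk _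
  have j1 : j ∞ = 1 := Subtype.ext e0
  have j2 : ∀ x : L, j (fl true x) = (j x)⁻¹ := fun x => Subtype.ext (e2 x)
  have j3 : ∀ a : Subgroup.closure (range j₀), a⁻¹ / a = a := fun a => Subtype.ext (funext fun y =>
    (by decide : ∀ c : Multiplicative (ZMod 3), c⁻¹ / c = c) (a.1 y))
  refine KW2.abs cj ⟨∞, j1⟩ (fun x => ?_) ?_ (OS3.ct k2) (fun H _ _ _ φ hφ => ?_)
    (S := range fun x : L => j x) (by rintro _ ⟨x, rfl⟩; exact ⟨x, rfl⟩) (fun u a hu ha => ?_)
    fun hc => ?_
  · induction x with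
    | infty => exact ⟨∞, by rw [j1, inv_one]⟩
    | coe x => exact ⟨_, j2 x⟩
  · rw [← Subgroup.closure_closure_coe_preimage]
    congr 1
    ext a
    exact ⟨by rintro ⟨x, rfl⟩; exact ⟨x, rfl⟩, fun ⟨x, hx⟩ => ⟨x, Subtype.ext hx⟩⟩
  · have h1 : Continuous fun x : L => φ (j x) := SeqContinuous.continuous fun u x hu =>
      hφ ((continuous_coe.tendsto x).comp hu)
    refine (OnePoint.continuous_iff _).2 ⟨?_, h1⟩
    rw [Function.comp_apply, j1, map_one]
    exact OS3.sc k1 k2 h1 fun x => by
      show φ (j _) / φ (j _) = φ (j _)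
      rw [j2, ← map_div, j3]
  · choose x hx using hu
    obtain ⟨p, hp⟩ := OS3.cc k1 x
    have h1 := hp.continuousAt_comp (cj.comp continuous_coe).continuousAt
    rw [show (j ∘ (↑)) ∘ x = u from funext hx] at h1
    exact ⟨p, eq_of_nhds_neBot (h1.clusterPt.mono ha)⟩
  · have : NoncompactSpace L := ⟨fun hK => by
      have := DiaDefs.unc
      obtain ⟨C, -, -, c⟩ := k2 univ not_countable_univ
      exact c _ hK (subset_univ _)⟩
    obtain ⟨x, hx⟩ := closure_minimal (by rintro _ ⟨x, rfl⟩; exact ⟨x, rfl⟩) (hc.preimage cj)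
      (denseRange_coe (X := L) ∞)
    have h1 := congrFun (congrArg Subtype.val (hx.trans j1)) x
    rw [show (j x).1 x = j₀ x x from rfl, e1, if_pos (hV x).1] at h1
    exact absurd h1 (by decide : Multiplicative.ofAdd (1 : ZMod 3) ≠ 1)

end Pool.Agent.Results.MP_8e9337_gt.DiamondCex
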